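import Mathlib
import Pool.Agent.Q273.QP.LawStm
import Pool.Agent.Q176.T6.Gauss

/-!
# The conductor and the height of the triple of a point of the projective line
-/

set_option autoImplicit false

namespace Q227.QP

open Polynomial NumberField Q273.QP IsDedekindDomain

section poly

variable {K : Type} [Field K] [NumberField K] {x : K} {f : ℤ[X]}

theorem natDegree_pos (hd : f.natDegree = Module.finrank ℚ K) : 0 < f.natDegree := by
  rw [hd]
  exact Module.finrank_pos

theorem map_eq (hf : Irreducible f) (hx : aeval x f = 0)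
    (hd : f.natDegree = Module.finrank ℚ K) :
    f.map (Int.castRingHom ℚ) = C (f.leadingCoeff : ℚ) * minpoly ℚ x := by
  have hgp : f.IsPrimitive := hf.isPrimitive (natDegree_pos hd).ne'
  have hgQ : Irreducible (f.map (Int.castRingHom ℚ)) :=
    (Polynomial.IsPrimitive.Int.irreducible_iff_irreducible_map_cast hgp).1 hf
  have h3 : aeval x (f.map (Int.castRingHom ℚ)) = 0 := by
    rw [← algebraMap_int_eq, Polynomial.aeval_map_algebraMap]
    exact hx
  have h4 := minpoly.eq_of_irreducible hgQ h3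
  have h5 : (f.map (Int.castRingHom ℚ)).leadingCoeff = (f.leadingCoeff : ℚ) := by
    rw [Polynomial.leadingCoeff_map_of_injective (RingHom.injective_int _)]
    rfl
  have h6 : (f.leadingCoeff : ℚ) ≠ 0 := by
    simpa using hf.ne_zero
  rw [← h4, h5, mul_comm, mul_assoc, ← C_mul, inv_mul_cancel₀ h6, C_1, mul_one]

theorem natDegree_minpoly (hf : Irreducible f) (hx : aeval x f = 0)
    (hd : f.natDegree = Module.finrank ℚ K) :
    (minpoly ℚ x).natDegree = Module.finrank ℚ K := by
  have h := congrArg Polynomial.natDegree (map_eq hf hx hd)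
  have h6 : (f.leadingCoeff : ℚ) ≠ 0 := by
    simpa using hf.ne_zero
  rw [Polynomial.natDegree_map_eq_of_injective (RingHom.injective_int _),
    Polynomial.natDegree_C_mul h6] at h
  rw [← h, hd]

theorem adjoin_top (hf : Irreducible f) (hx : aeval x f = 0)
    (hd : f.natDegree = Module.finrank ℚ K) : IntermediateField.adjoin ℚ {x} = ⊤ :=
  (Field.primitive_element_iff_minpoly_natDegree_eq ℚ x).2 (natDegree_minpoly hf hx hd)

theorem eval_norm (hf : Irreducible f) (hx : aeval x f = 0)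
    (hd : f.natDegree = Module.finrank ℚ K) (t : ℤ) :
    ((f.eval t : ℤ) : ℚ) = f.leadingCoeff * Algebra.norm ℚ ((t : K) - x) := by
  classical
  have h1 : ((f.eval t : ℤ) : ℚ) = (f.map (Int.castRingHom ℚ)).eval (t : ℚ) := by
    rw [Polynomial.eval_intCast_map]
    rfl
  rw [h1, map_eq hf hx hd, eval_mul, eval_C]
  congr 1
  rw [← Pool.Agent.Q176.T6.charpoly_eq x (adjoin_top hf hx hd), Matrix.eval_charpoly,
    Algebra.norm_eq_matrix_det (integralBasis K), map_sub]
  congr 2
  have h2 : ((t : ℤ) : K) = algebraMap ℚ K (t : ℚ) := by simp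
  rw [h2, AlgHom.commutes]
  rfl

theorem hv_zero_one : hv 0 1 f = f.eval 0 := by
  unfold hv
  rw [Finset.sum_eq_single 0]
  · simp [Polynomial.coeff_zero_eq_eval_zero]
  · intro i _ hi
    simp [hi]
  · simp

theorem hv_one_one : hv 1 1 f = f.eval 1 := by
  unfold hv
  rw [Polynomial.eval_eq_sum_range]
  exact Finset.sum_congr rfl fun i _ => by simp

theorem hv_one_zero : hv 1 0 f = f.leadingCoeff := by
  unfold hv
  rw [Finset.sum_eq_single f.natDegree]
  · simp
  · intro i hi hne
    have : f.natDegree - i ≠ 0 := by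
      have := Finset.mem_range.1 hi
      omega
    simp [this]
  · simp

end poly

section ideal

variable {K : Type} [Field K] [NumberField K]

theorem fv_int_le (v : HeightOneSpectrum (𝓞 K)) (y : 𝓞 K) : FinitePlace.mk v (y : K) ≤ 1 :=
  FinitePlace.norm_le_one (K := K) (v := v) y

theorem fv_lt_one (v : HeightOneSpectrum (𝓞 K)) {y : 𝓞 K} (h : y ∈ v.asIdeal) :
    FinitePlace.mk v (y : K) < 1 :=
  (FinitePlace.norm_lt_one_iff_mem (K := K) (v := v) y).2 h

theorem exists_prime_of_dvd {a b y : 𝓞 K} (hy : y ∈ Ideal.span {a, b}) (hy0 : y ≠ 0) {p m : ℕ}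
    (hp : p.Prime)
    (hm : Ideal.absNorm (Ideal.span {a, b}) * m = (Algebra.norm ℤ y).natAbs) (hpm : p ∣ m) :
    ∃ v : HeightOneSpectrum (𝓞 K), p ∣ Ideal.absNorm v.asIdeal ∧
      FinitePlace.mk v (y : K) < max (FinitePlace.mk v (a : K)) (FinitePlace.mk v (b : K)) := by
  classical
  set I : Ideal (𝓞 K) := Ideal.span {a, b} with hI
  have hyI : Ideal.span {y} ≤ I := (Ideal.span_singleton_le_iff_mem I).2 hy
  obtain ⟨J, hJ⟩ := Ideal.dvd_iff_le.2 hyI
  have hy0' : Ideal.span {y} ≠ ⊥ := by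
    rw [Ne, Ideal.span_singleton_eq_bot]
    exact hy0
  have hI0 : I ≠ ⊥ := by
    intro h
    rw [h] at hJ
    exact hy0' (by rw [hJ]; simp)
  have hJ0 : J ≠ ⊥ := by
    intro h
    rw [h] at hJ
    exact hy0' (by rw [hJ]; simp)
  have hIn : Ideal.absNorm I ≠ 0 := Ideal.absNorm_eq_zero_iff.not.2 hI0
  have hmJ : m = Ideal.absNorm J := by
    have h1 : Ideal.absNorm (Ideal.span {y}) = (Algebra.norm ℤ y).natAbs :=
      Ideal.absNorm_span_singleton y
    rw [hJ, map_mul] at h1
    exact Nat.eq_of_mul_eq_mul_left (Nat.pos_of_ne_zero hIn) (hm.trans h1.symm)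
  have h2 : p ∣ ((UniqueFactorizationMonoid.normalizedFactors J).map Ideal.absNorm).prod := by
    rw [← map_multiset_prod, Ideal.prod_normalizedFactors_eq_self hJ0, ← hmJ]
    exact hpm
  obtain ⟨P, hP, hpP⟩ := hp.prime.exists_mem_multiset_map_dvd h2
  have hPp := UniqueFactorizationMonoid.prime_of_normalized_factor P hP
  have hPJ : J ≤ P := Ideal.le_of_dvd (UniqueFactorizationMonoid.dvd_of_mem_normalizedFactors hP)
  let v : HeightOneSpectrum (𝓞 K) := ⟨P, Ideal.isPrime_of_prime hPp, hPp.ne_zero⟩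
  refine ⟨v, hpP, ?_⟩
  have hyP : y ∈ I * P := by
    have h3 : y ∈ Ideal.span {y} := Ideal.mem_span_singleton_self y
    rw [hJ] at h3
    exact Ideal.mul_mono_right hPJ h3
  rw [hI, Ideal.span_insert, Ideal.sup_mul] at hyP
  obtain ⟨s', hs', t', ht', hst⟩ := Submodule.mem_sup.1 hyP
  obtain ⟨s, hs, rfl⟩ := Ideal.mem_span_singleton_mul.1 hs'
  obtain ⟨t, ht, rfl⟩ := Ideal.mem_span_singleton_mul.1 ht'
  have hs1 : FinitePlace.mk v (s : K) < 1 := fv_lt_one v hs
  have ht1 : FinitePlace.mk v (t : K) < 1 := fv_lt_one v ht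
  have hmax : 0 < max (FinitePlace.mk v (a : K)) (FinitePlace.mk v (b : K)) := by
    by_contra hle
    have ha : FinitePlace.mk v (a : K) ≤ 0 := (le_max_left _ _).trans (not_lt.1 hle)
    have hb : FinitePlace.mk v (b : K) ≤ 0 := (le_max_right _ _).trans (not_lt.1 hle)
    have ha0 : (a : K) = 0 := by
      by_contra h
      exact absurd (FinitePlace.pos_iff.2 h) (not_lt.2 ha)
    have hb0 : (b : K) = 0 := by
      by_contra h
      exact absurd (FinitePlace.pos_iff.2 h) (not_lt.2 hb)
    have ha1 : a = 0 := by exact_mod_cast ha0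
    have hb1 : b = 0 := by exact_mod_cast hb0
    apply hy0
    rw [← hst, ha1, hb1]
    simp
  have hmul : ∀ c d : K, FinitePlace.mk v d < 1 → FinitePlace.mk v c ≤
      max (FinitePlace.mk v (a : K)) (FinitePlace.mk v (b : K)) →
      FinitePlace.mk v (c * d) < max (FinitePlace.mk v (a : K)) (FinitePlace.mk v (b : K)) := by
    intro c d hd hc
    rw [map_mul]
    rcases (apply_nonneg (FinitePlace.mk v) c).eq_or_lt with h0 | h0
    · rw [← h0, zero_mul]
      exact hmax
    · calc FinitePlace.mk v c * FinitePlace.mk v d < FinitePlace.mk v c * 1 :=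
            mul_lt_mul_of_pos_left hd h0
        _ ≤ _ := by rw [mul_one]; exact hc
  have hyK : (y : K) = (a : K) * (s : K) + (b : K) * (t : K) := by
    rw [← hst]
    push_cast
    rfl
  rw [hyK]
  refine (FinitePlace.add_le _ _ _).trans_lt (max_lt ?_ ?_)
  · exact hmul _ _ hs1 (le_max_left _ _)
  · exact hmul _ _ ht1 (le_max_right _ _)

/-- Two prime numbers that divide the norm of a prime ideal are equal. -/
theorem prime_unique (v : HeightOneSpectrum (𝓞 K)) {p q : ℕ} (hp : p.Prime) (hq : q.Prime)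
    (hpv : p ∣ Ideal.absNorm v.asIdeal) (hqv : q ∣ Ideal.absNorm v.asIdeal) : p = q := by
  classical
  have hmax : v.asIdeal.IsMaximal := v.isMaximal
  letI : Field (𝓞 K ⧸ v.asIdeal) := Ideal.Quotient.field v.asIdeal
  have hne : Ideal.absNorm v.asIdeal ≠ 0 := Ideal.absNorm_eq_zero_iff.not.2 v.ne_bot
  have hcard : Nat.card (𝓞 K ⧸ v.asIdeal) = Ideal.absNorm v.asIdeal := by
    rw [Ideal.absNorm_apply, Submodule.cardQuot_apply]
  have hfin : Finite (𝓞 K ⧸ v.asIdeal) := by
    apply Nat.finite_of_card_ne_zero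
    rw [hcard]
    exact hne
  letI : Fintype (𝓞 K ⧸ v.asIdeal) := Fintype.ofFinite _
  have h1 : IsPrimePow (Ideal.absNorm v.asIdeal) := by
    rw [← hcard, Nat.card_eq_fintype_card]
    exact FiniteField.isPrimePow_card _
  obtain ⟨r, -, hr⟩ := isPrimePow_iff_unique_prime_dvd.1 h1
  rw [hr p ⟨hp, hpv⟩, hr q ⟨hq, hqv⟩]

end ideal

end Q227.QP
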