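import Mathlib
import Pool.Agent.Q227.QP.COND

/-!
# The conductor of the triple of a point and the primes that divide the values
-/

set_option autoImplicit false

namespace Q227.QP

open Polynomial NumberField Q273.QP IsDedekindDomain Finset

variable {K : Type} [Field K] [NumberField K]

theorem fv_one (v : HeightOneSpectrum (𝓞 K)) : FinitePlace.mk v (1 : K) = 1 := map_one _

theorem fv_neg_one (v : HeightOneSpectrum (𝓞 K)) : FinitePlace.mk v (-1 : K) = 1 := by
  rw [map_neg_eq_map, map_one]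

theorem fv_sub_le (v : HeightOneSpectrum (𝓞 K)) (x : K) :
    FinitePlace.mk v (1 - x) ≤ max 1 (FinitePlace.mk v x) := by
  rw [sub_eq_add_neg]
  refine (FinitePlace.add_le _ _ _).trans ?_
  rw [map_one, map_neg_eq_map]

theorem fv_le_sub (v : HeightOneSpectrum (𝓞 K)) (x : K) :
    FinitePlace.mk v x ≤ max 1 (FinitePlace.mk v (1 - x)) := by
  have h := fv_sub_le v (1 - x)
  rwa [sub_sub_cancel] at h

theorem one_le_sub (v : HeightOneSpectrum (𝓞 K)) (x : K) :
    1 ≤ max (FinitePlace.mk v x) (FinitePlace.mk v (1 - x)) := by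
  have h := FinitePlace.add_le (FinitePlace.mk v) x (1 - x)
  rwa [add_sub_cancel, map_one] at h

/-- The places with unequal values. -/
def badSet (x : K) : Set (HeightOneSpectrum (𝓞 K)) :=
  {v | ¬ (FinitePlace.mk v x = FinitePlace.mk v (1 - x) ∧
    FinitePlace.mk v (1 - x) = FinitePlace.mk v (-1))}

theorem finite_ne_one {y : K} (hy : y ≠ 0) :
    {v : HeightOneSpectrum (𝓞 K) | FinitePlace.mk v y ≠ 1}.Finite := by
  have h := FinitePlace.hasFiniteMulSupport hy
  refine (h.image FinitePlace.maximalIdeal).subset ?_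
  intro v hv
  exact ⟨FinitePlace.mk v, hv, FinitePlace.maximalIdeal_mk v⟩

theorem badSet_finite {x : K} (h0 : x ≠ 0) (h1 : x ≠ 1) : (badSet x).Finite := by
  have h1' : (1 : K) - x ≠ 0 := sub_ne_zero.2 (Ne.symm h1)
  refine ((finite_ne_one h0).union (finite_ne_one h1')).subset ?_
  intro v hv
  by_contra hcon
  simp only [Set.mem_union, Set.mem_ofPred_eq, not_or, not_not] at hcon
  apply hv
  rw [hcon.1, hcon.2, fv_neg_one]
  exact ⟨rfl, rfl⟩

theorem cond_eq {x : K} (h0 : x ≠ 0) (h1 : x ≠ 1) :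
    Q273.QP.cond ![x, 1 - x, -1] =
      (∑ v ∈ (badSet_finite h0 h1).toFinset, Real.log (Ideal.absNorm v.asIdeal : ℝ)) /
        (Module.finrank ℚ K : ℝ) := by
  unfold Q273.QP.cond
  congr 1
  rw [← finsum_mem_eq_finite_toFinset_sum]
  rfl

/-- The three classes of places. -/
def cls (x : K) (j : Fin 3) (v : HeightOneSpectrum (𝓞 K)) : Prop :=
  (j = 0 ∧ FinitePlace.mk v x < 1) ∨
    (j = 1 ∧ FinitePlace.mk v x = 1 ∧ FinitePlace.mk v (1 - x) < 1) ∨
      (j = 2 ∧ 1 < FinitePlace.mk v x)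

theorem cls_inj {x : K} {i j : Fin 3} {v : HeightOneSpectrum (𝓞 K)} (hi : cls x i v)
    (hj : cls x j v) : i = j := by
  rcases hi with ⟨rfl, h⟩ | ⟨rfl, h, h'⟩ | ⟨rfl, h⟩ <;>
    rcases hj with ⟨rfl, g⟩ | ⟨rfl, g, g'⟩ | ⟨rfl, g⟩ <;> first | rfl | (exfalso; linarith)

theorem cls_bad {x : K} {j : Fin 3} {v : HeightOneSpectrum (𝓞 K)} (hj : cls x j v) :
    v ∈ badSet x := by
  rintro ⟨h1, h2⟩
  rw [fv_neg_one] at h2
  rw [h2] at h1
  rcases hj with ⟨rfl, h⟩ | ⟨rfl, h, h'⟩ | ⟨rfl, h⟩ <;> linarith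

/-- The three numbers. -/
def val3 (f : ℤ[X]) : Fin 3 → ℤ := ![hv 0 1 f, hv 1 1 f, hv 1 0 f]

theorem exists_place {x : K} {f : ℤ[X]} (h0 : x ≠ 0) (h1 : x ≠ 1) (hf : Irreducible f)
    (hx : aeval x f = 0) (hd : f.natDegree = Module.finrank ℚ K) (j : Fin 3) {p : ℕ}
    (hp : p.Prime) (hpj : (p : ℤ) ∣ val3 f j) :
    ∃ v : HeightOneSpectrum (𝓞 K), p ∣ Ideal.absNorm v.asIdeal ∧ cls x j v := by
  obtain ⟨a, b, hb, hab⟩ := IsFractionRing.div_surjective (𝓞 K) x
  have hb0 : b ≠ 0 := nonZeroDivisors.ne_zero hb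
  have hbK : (b : K) ≠ 0 := by exact_mod_cast hb0
  have habx : (a : K) = b * x := by
    rw [← hab]
    field_simp
  have ha0 : a ≠ 0 := by
    rintro rfl
    apply h0
    rw [← hab]
    simp
  have hba0 : b - a ≠ 0 := by
    intro h
    apply h1
    have h2 : b = a := sub_eq_zero.1 h
    have h3 : (b : K) * x = b * 1 := by rw [← habx, h2, mul_one]
    exact mul_left_cancel₀ hbK h3
  have hG := Pool.Agent.Q176.T6.gauss K x f a b (adjoin_top hf hx hd) hf hx hb0 habx
  have hbpos : ∀ v : HeightOneSpectrum (𝓞 K), 0 < FinitePlace.mk v (b : K) := fun v =>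
    FinitePlace.pos_iff.2 hbK
  have hdiv : ∀ (v : HeightOneSpectrum (𝓞 K)) (y : 𝓞 K) (z : K), (y : K) = b * z →
      FinitePlace.mk v (y : K) < max (FinitePlace.mk v (a : K)) (FinitePlace.mk v (b : K)) →
      FinitePlace.mk v z < max (FinitePlace.mk v x) 1 := by
    intro v y z hyz hlt
    rw [habx, hyz, map_mul, map_mul] at hlt
    have h2 : max (FinitePlace.mk v (b : K) * FinitePlace.mk v x) (FinitePlace.mk v (b : K)) =
        FinitePlace.mk v (b : K) * max (FinitePlace.mk v x) 1 := by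
      rw [mul_max_of_nonneg _ _ (hbpos v).le, mul_one]
    rw [h2] at hlt
    exact lt_of_mul_lt_mul_left hlt (hbpos v).le
  -- the norm of an integral element
  have hnorm : ∀ (y : 𝓞 K) (z : K) (m : ℤ), (y : K) = b * z →
      (m : ℚ) = f.leadingCoeff * Algebra.norm ℚ z ∨ (m : ℚ) = f.leadingCoeff * -Algebra.norm ℚ z →
      Ideal.absNorm (Ideal.span {a, b}) * m.natAbs = (Algebra.norm ℤ y).natAbs := by
    intro y z m hyz hm
    have h2 : ((Algebra.norm ℤ y : ℤ) : ℚ) = (Algebra.norm ℤ b : ℤ) * Algebra.norm ℚ z := by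
      rw [Algebra.coe_norm_int, Algebra.coe_norm_int, hyz, map_mul]
    have h3 : (f.leadingCoeff : ℚ) ≠ 0 := by
      simpa using hf.ne_zero
    have h4 : ((Algebra.norm ℤ y : ℤ) * f.leadingCoeff : ℤ) = Algebra.norm ℤ b * m ∨
        ((Algebra.norm ℤ y : ℤ) * f.leadingCoeff : ℤ) = -(Algebra.norm ℤ b * m) := by
      rcases hm with hm | hm
      · left
        have : ((Algebra.norm ℤ y * f.leadingCoeff : ℤ) : ℚ) = ((Algebra.norm ℤ b * m : ℤ) : ℚ) := by
          push_cast
          rw [h2, hm]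
          ring
        exact_mod_cast this
      · right
        have : ((Algebra.norm ℤ y * f.leadingCoeff : ℤ) : ℚ) =
            ((-(Algebra.norm ℤ b * m) : ℤ) : ℚ) := by
          push_cast
          rw [h2, hm]
          ring
        exact_mod_cast this
    have h5 : (Algebra.norm ℤ y).natAbs * f.leadingCoeff.natAbs =
        (Algebra.norm ℤ b).natAbs * m.natAbs := by
      rcases h4 with h4 | h4
      · rw [← Int.natAbs_mul, ← Int.natAbs_mul, h4]
      · rw [← Int.natAbs_mul, ← Int.natAbs_mul, h4, Int.natAbs_neg]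
    have h6 : 0 < f.leadingCoeff.natAbs := by
      rw [Nat.pos_iff_ne_zero, Ne, Int.natAbs_eq_zero]
      exact_mod_cast h3
    refine Nat.eq_of_mul_eq_mul_right h6 ?_
    rw [h5, ← hG]
    ring
  have hmemb : b ∈ (Ideal.span {a, b} : Ideal (𝓞 K)) := Ideal.subset_span (by simp)
  have hmema : a ∈ (Ideal.span {a, b} : Ideal (𝓞 K)) := Ideal.subset_span (by simp)
  have hpn : p ∣ (val3 f j).natAbs := Int.natCast_dvd.1 hpj
  fin_cases j
  · -- the point 0
    have hm := hnorm a x (hv 0 1 f) habx (by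
      have h2 := eval_norm hf hx hd 0
      rw [hv_zero_one, h2, Int.cast_zero, zero_sub]
      have h3 : Algebra.norm ℚ (-x) = Algebra.norm ℚ x ∨ Algebra.norm ℚ (-x) = - Algebra.norm ℚ x := by
        rw [neg_eq_neg_one_mul, map_mul]
        have h4 : Algebra.norm ℚ (-1 : K) = 1 ∨ Algebra.norm ℚ (-1 : K) = -1 := by
          have h5 : Algebra.norm ℚ (-1 : K) * Algebra.norm ℚ (-1 : K) = 1 := by
            rw [← map_mul]
            simp
          exact mul_self_eq_one_iff.1 h5
        rcases h4 with h4 | h4 <;> rw [h4]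
        · left; ring
        · right; ring
      rcases h3 with h3 | h3 <;> rw [h3]
      · left; rfl
      · right; rfl)
    obtain ⟨v, hv1, hv2⟩ := exists_prime_of_dvd hmema ha0 hp hm hpn
    refine ⟨v, hv1, Or.inl ⟨rfl, ?_⟩⟩
    have h2 := hdiv v a x habx hv2
    rcases lt_max_iff.1 h2 with h3 | h3
    · exact absurd h3 (lt_irrefl _)
    · exact h3
  · -- the point 1
    have hyz : ((b - a : 𝓞 K) : K) = b * (1 - x) := by
      have h2 : ((b - a : 𝓞 K) : K) = (b : K) - (a : K) := map_sub (algebraMap (𝓞 K) K) b a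
      rw [h2, habx]
      ring
    have hm := hnorm (b - a) (1 - x) (hv 1 1 f) hyz (by
      left
      have h2 := eval_norm hf hx hd 1
      rw [hv_one_one, h2, Int.cast_one])
    obtain ⟨v, hv1, hv2⟩ := exists_prime_of_dvd (Ideal.sub_mem _ hmemb hmema) hba0 hp hm hpn
    have h2 := hdiv v (b - a) (1 - x) hyz hv2
    have h3 := fv_le_sub v x
    have h4 := one_le_sub v x
    have h5 : FinitePlace.mk v (1 - x) < 1 := by
      by_contra hge
      rw [not_lt] at hge
      rcases lt_max_iff.1 h2 with h6 | h6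
      · rcases le_max_iff.1 h3 with h7 | h7 <;> linarith
      · linarith
    have h6 : FinitePlace.mk v x ≤ 1 := by
      rcases le_max_iff.1 h3 with h7 | h7 <;> linarith
    have h7 : 1 ≤ FinitePlace.mk v x := by
      rcases le_max_iff.1 h4 with h7 | h7 <;> linarith
    exact ⟨v, hv1, Or.inr (Or.inl ⟨rfl, le_antisymm h6 h7, h5⟩)⟩
  · -- the point at infinity
    have hm := hnorm b 1 (hv 1 0 f) (by rw [mul_one]) (by
      left
      rw [hv_one_zero]
      simp)
    obtain ⟨v, hv1, hv2⟩ := exists_prime_of_dvd hmemb hb0 hp hm hpn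
    refine ⟨v, hv1, Or.inr (Or.inr ⟨rfl, ?_⟩)⟩
    have h2 := hdiv v b 1 (by rw [mul_one]) hv2
    rw [fv_one] at h2
    rcases lt_max_iff.1 h2 with h3 | h3
    · exact h3
    · exact absurd h3 (lt_irrefl _)

theorem val3_ne {x : K} {f : ℤ[X]} (h0 : x ≠ 0) (h1 : x ≠ 1) (hf : Irreducible f)
    (hx : aeval x f = 0) (hd : f.natDegree = Module.finrank ℚ K) (j : Fin 3) : val3 f j ≠ 0 := by
  have h3 : (f.leadingCoeff : ℚ) ≠ 0 := by
    simpa using hf.ne_zero
  fin_cases j
  · change hv 0 1 f ≠ 0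
    rw [hv_zero_one]
    intro h
    have h2 := eval_norm hf hx hd 0
    rw [h, Int.cast_zero, Int.cast_zero, zero_sub] at h2
    rcases mul_eq_zero.1 h2.symm with h4 | h4
    · exact h3 h4
    · exact h0 (neg_eq_zero.1 (Algebra.norm_eq_zero_iff.1 h4))
  · change hv 1 1 f ≠ 0
    rw [hv_one_one]
    intro h
    have h2 := eval_norm hf hx hd 1
    rw [h, Int.cast_zero, Int.cast_one] at h2
    rcases mul_eq_zero.1 h2.symm with h4 | h4
    · exact h3 h4
    · exact h1 (sub_eq_zero.1 (Algebra.norm_eq_zero_iff.1 h4)).symm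
  · change hv 1 0 f ≠ 0
    rw [hv_one_zero]
    exact_mod_cast h3

theorem N1_le {x : K} {f : ℤ[X]} (h0 : x ≠ 0) (h1 : x ≠ 1) (hf : Irreducible f)
    (hx : aeval x f = 0) (hd : f.natDegree = Module.finrank ℚ K) :
    N1 ∅ 0 1 f + N1 ∅ 1 1 f + N1 ∅ 1 0 f ≤ Q273.QP.cond ![x, 1 - x, -1] := by
  classical
  rw [cond_eq h0 h1]
  have hn : (0 : ℝ) < Module.finrank ℚ K := by exact_mod_cast Module.finrank_pos
  have h2 : N1 ∅ 0 1 f + N1 ∅ 1 1 f + N1 ∅ 1 0 f =
      (∑ j : Fin 3, ∑ p ∈ (val3 f j).natAbs.primeFactors, Real.log p) /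
        (Module.finrank ℚ K : ℝ) := by
    rw [Fin.sum_univ_three, ← hd]
    unfold N1 val3
    simp only [sdiff_empty, Matrix.cons_val_zero, Matrix.cons_val_one, Matrix.cons_val]
    ring
  rw [h2]
  refine div_le_div_of_nonneg_right ?_ hn.le
  rw [Finset.sum_sigma']
  have hex : ∀ q : (Σ _ : Fin 3, ℕ), q ∈ (univ : Finset (Fin 3)).sigma
      (fun j => (val3 f j).natAbs.primeFactors) → ∃ v : HeightOneSpectrum (𝓞 K),
      q.2 ∣ Ideal.absNorm v.asIdeal ∧ cls x q.1 v := by
    intro q hq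
    rw [mem_sigma] at hq
    have hq2 := hq.2
    exact exists_place h0 h1 hf hx hd q.1 (Nat.prime_of_mem_primeFactors hq2)
      (Int.natCast_dvd.2 (Nat.dvd_of_mem_primeFactors hq2))
  set Q : Finset (Σ _ : Fin 3, ℕ) := (univ : Finset (Fin 3)).sigma
      (fun j => (val3 f j).natAbs.primeFactors) with hQ
  have hlog : ∀ v : HeightOneSpectrum (𝓞 K), 0 ≤ Real.log (Ideal.absNorm v.asIdeal : ℝ) :=
    fun v => Real.log_natCast_nonneg _
  rcases Q.eq_empty_or_nonempty with hQe | ⟨q₀, hq₀⟩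
  · rw [hQe, sum_empty]
    exact sum_nonneg fun v _ => hlog v
  obtain ⟨v₀, -⟩ := hex q₀ hq₀
  have hne : Nonempty (HeightOneSpectrum (𝓞 K)) := ⟨v₀⟩
  choose! V hV using hex
  have hinj : Set.InjOn V Q := by
    rintro ⟨i, p⟩ hp ⟨j, q⟩ hq hpq
    have hp1 := hV _ hp
    have hq1 := hV _ hq
    rw [hpq] at hp1
    have hij : i = j := cls_inj hp1.2 hq1.2
    subst hij
    have hpp := Nat.prime_of_mem_primeFactors (mem_sigma.1 hp).2
    have hqp := Nat.prime_of_mem_primeFactors (mem_sigma.1 hq).2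
    have : p = q := prime_unique _ hpp hqp hp1.1 hq1.1
    rw [this]
  calc ∑ q ∈ Q, Real.log (q.2 : ℝ) ≤ ∑ q ∈ Q, Real.log (Ideal.absNorm (V q).asIdeal : ℝ) := by
        refine sum_le_sum fun q hq => ?_
        have hqp := Nat.prime_of_mem_primeFactors (mem_sigma.1 hq).2
        refine Real.log_le_log (by exact_mod_cast hqp.pos) ?_
        exact_mod_cast Nat.le_of_dvd (Nat.pos_of_ne_zero
          (Ideal.absNorm_eq_zero_iff.not.2 (V q).ne_bot)) (hV q hq).1
    _ = ∑ v ∈ Q.image V, Real.log (Ideal.absNorm v.asIdeal : ℝ) :=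
        (sum_image (f := fun v : HeightOneSpectrum (𝓞 K) =>
          Real.log (Ideal.absNorm v.asIdeal : ℝ)) hinj).symm
    _ ≤ _ := by
        refine sum_le_sum_of_subset_of_nonneg ?_ fun v _ _ => hlog v
        intro v hv
        obtain ⟨q, hq, rfl⟩ := mem_image.1 hv
        rw [Set.Finite.mem_toFinset]
        exact cls_bad (hV q hq).2

/-- The value of a triple at a finite place. -/
theorem max3_eq (v : HeightOneSpectrum (𝓞 K)) (x : K) :
    max (FinitePlace.mk v x) (max (FinitePlace.mk v (1 - x)) (FinitePlace.mk v (-1))) =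
      max (FinitePlace.mk v x) 1 := by
  rw [fv_neg_one]
  apply le_antisymm
  · refine max_le (le_max_left _ _) (max_le ?_ (le_max_right _ _))
    rw [max_comm]
    exact fv_sub_le v x
  · exact max_le (le_max_left _ _) ((le_max_right _ _).trans (le_max_right _ _))

/-- The finite part of the height. -/
theorem finite_part {x : K} {f : ℤ[X]} (h0 : x ≠ 0) (hf : Irreducible f)
    (hx : aeval x f = 0) (hd : f.natDegree = Module.finrank ℚ K) :
    ∑ᶠ v : HeightOneSpectrum (𝓞 K), Real.log (max (FinitePlace.mk v x) 1) =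
      Real.log |(f.leadingCoeff : ℝ)| := by
  classical
  obtain ⟨a, b, hb, hab⟩ := IsFractionRing.div_surjective (𝓞 K) x
  have hb0 : b ≠ 0 := nonZeroDivisors.ne_zero hb
  have hbK : (b : K) ≠ 0 := by exact_mod_cast hb0
  have habx : (a : K) = b * x := by
    rw [← hab]
    field_simp
  have ha0 : a ≠ 0 := by
    rintro rfl
    apply h0
    rw [← hab]
    simp
  have haK : (a : K) ≠ 0 := by exact_mod_cast ha0
  have hG := Pool.Agent.Q176.T6.gauss K x f a b (adjoin_top hf hx hd) hf hx hb0 habx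
  have h1 := NumberField.absNorm_mul_finprod_finitePlace_eq_one (K := K) (x := ![a, b])
    (by
      intro h
      exact ha0 (congrFun h 0))
  have hsup : ∀ v : FinitePlace K, (⨆ i, v ((![a, b] : Fin 2 → 𝓞 K) i : K)) =
      max (v (a : K)) (v (b : K)) := by
    intro v
    apply le_antisymm
    · refine ciSup_le fun i => ?_
      fin_cases i
      · exact le_max_left _ _
      · exact le_max_right _ _
    · have hbdd : BddAbove (Set.range fun i : Fin 2 => v ((![a, b] : Fin 2 → 𝓞 K) i : K)) :=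
        Set.Finite.bddAbove (Set.finite_range _)
      exact max_le (le_ciSup hbdd 0) (le_ciSup hbdd 1)
  have h2 := FinitePlace.prod_eq_inv_abs_norm_int hb0
  have hsa := FinitePlace.hasFiniteMulSupport (K := K) haK
  have hsb := FinitePlace.hasFiniteMulSupport (K := K) hbK
  have hsm : (fun v : FinitePlace K => max (v (a : K)) (v (b : K))).HasFiniteMulSupport := by
    refine (hsa.union hsb).subset ?_
    intro v hv
    by_contra hcon
    rw [Set.mem_union, not_or, Function.mem_mulSupport, Function.mem_mulSupport, not_not,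
      not_not] at hcon
    apply hv
    change max (v (a : K)) (v (b : K)) = 1
    rw [hcon.1, hcon.2, max_self]
  have h3 : ∏ᶠ v : FinitePlace K, max (v x) 1 =
      (∏ᶠ v : FinitePlace K, max (v (a : K)) (v (b : K))) / ∏ᶠ v : FinitePlace K, v (b : K) := by
    rw [← finprod_div_distrib hsm hsb]
    refine finprod_congr fun v => ?_
    have hvb : 0 < v (b : K) := FinitePlace.pos_iff.2 hbK
    rw [habx, map_mul, eq_div_iff hvb.ne', max_mul_of_nonneg _ _ hvb.le, one_mul, mul_comm (v x)]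
  have h4 : ∏ᶠ v : FinitePlace K, max (v x) 1 = |(f.leadingCoeff : ℝ)| := by
    rw [h3, h2]
    simp only [hsup] at h1
    have hr : Set.range ![a, b] = {a, b} := by
      ext y
      simp [Matrix.range_cons, Matrix.range_empty, or_comm]
    rw [hr] at h1
    have hG' : (Ideal.absNorm (Ideal.span {a, b}) : ℝ) * |(f.leadingCoeff : ℝ)| =
        |((Algebra.norm ℤ b : ℤ) : ℝ)| := by
      have := congrArg (fun n : ℕ => (n : ℝ)) hG
      simpa only [Nat.cast_mul, Nat.cast_natAbs, Int.cast_abs] using this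
    have hI : (Ideal.absNorm (Ideal.span {a, b}) : ℝ) ≠ 0 := by
      intro h
      rw [h, zero_mul] at h1
      exact zero_ne_one h1
    have hprod : (∏ᶠ v : FinitePlace K, max (v (a : K)) (v (b : K))) =
        (Ideal.absNorm (Ideal.span {a, b}) : ℝ)⁻¹ := eq_inv_of_mul_eq_one_right h1
    rw [hprod, ← hG']
    field_simp
  rw [← h4, Real.log_finprod (fun v => lt_of_lt_of_le one_pos (le_max_right _ _))]
  rw [← finsum_comp_equiv (FinitePlace.equivHeightOneSpectrum (K := K)).symm]
  rfl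

/-- A sum over the infinite places with multiplicities is a sum over the embeddings. -/
theorem sum_places (g : InfinitePlace K → ℝ) :
    ∑ w : InfinitePlace K, (w.mult : ℝ) * g w = ∑ σ : K →+* ℂ, g (InfinitePlace.mk σ) := by
  classical
  rw [← Finset.sum_fiberwise_of_maps_to (s := univ) (t := univ)
    (g := fun σ : K →+* ℂ => InfinitePlace.mk σ) (fun _ _ => mem_univ _)]
  refine sum_congr rfl fun w _ => ?_
  rw [← InfinitePlace.card_filter_mk_eq w, ← nsmul_eq_mul, ← sum_const]
  exact sum_congr rfl fun σ hσ => by rw [(mem_filter.1 hσ).2]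

theorem roots_eq {x : K} {f : ℤ[X]} (hf : Irreducible f)
    (hx : aeval x f = 0) (hd : f.natDegree = Module.finrank ℚ K) :
    (f.map (Int.castRingHom ℂ)).roots = (univ : Finset (K →+* ℂ)).val.map (fun σ => σ x) := by
  classical
  have hf0 : f.map (Int.castRingHom ℂ) ≠ 0 := by
    rw [Ne, Polynomial.map_eq_zero_iff (RingHom.injective_int _)]
    exact hf.ne_zero
  have htop := adjoin_top hf hx hd
  have hinj : Function.Injective (fun σ : K →+* ℂ => σ x) := by
    intro σ τ h
    have hadj : Algebra.adjoin ℚ {x} = ⊤ := by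
      rw [← IntermediateField.adjoin_simple_toSubalgebra_of_isAlgebraic
        (Algebra.IsAlgebraic.isAlgebraic x), htop, IntermediateField.top_toSubalgebra]
    have h1 : σ.toRatAlgHom = τ.toRatAlgHom := by
      refine AlgHom.ext_of_adjoin_eq_top hadj ?_
      intro y hy
      rw [Set.mem_singleton_iff.1 hy]
      exact h
    ext y
    exact DFunLike.congr_fun h1 y
  symm
  apply Multiset.eq_of_le_of_card_le
  · rw [Multiset.le_iff_subset ((Finset.nodup _).map hinj)]
    intro z hz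
    obtain ⟨σ, -, rfl⟩ := Multiset.mem_map.1 hz
    rw [Polynomial.mem_roots hf0, Polynomial.IsRoot, Polynomial.eval_map]
    have h1 : σ (aeval x f) = 0 := by rw [hx, map_zero]
    have h2 : σ.comp (algebraMap ℤ K) = Int.castRingHom ℂ := RingHom.ext_int _ _
    rw [Polynomial.aeval_def, Polynomial.hom_eval₂, h2] at h1
    exact h1
  · rw [Multiset.card_map]
    refine (Polynomial.card_roots' _).trans ?_
    refine (Polynomial.natDegree_map_le).trans ?_
    rw [hd]
    exact (NumberField.Embeddings.card K ℂ).ge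

theorem height_bounds {x : K} {f : ℤ[X]} (h0 : x ≠ 0) (hf : Irreducible f)
    (hx : aeval x f = 0) (hd : f.natDegree = Module.finrank ℚ K) :
    |hgt ![x, 1 - x, -1] - height f| ≤ Real.log 2 := by
  classical
  have hn : (0 : ℝ) < Module.finrank ℚ K := by exact_mod_cast Module.finrank_pos
  have hlc : (f.leadingCoeff : ℝ) ≠ 0 := by
    have := Polynomial.leadingCoeff_ne_zero.2 hf.ne_zero
    exact_mod_cast this
  have h1 : Real.log (f.map (Int.castRingHom ℂ)).mahlerMeasure =
      Real.log |(f.leadingCoeff : ℝ)| + ∑ σ : K →+* ℂ, Real.log (max 1 ‖σ x‖) := by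
    rw [Polynomial.mahlerMeasure_eq_leadingCoeff_mul_prod_roots, roots_eq hf hx hd,
      Multiset.map_map]
    have h2 : ‖(f.map (Int.castRingHom ℂ)).leadingCoeff‖ = |(f.leadingCoeff : ℝ)| := by
      rw [Polynomial.leadingCoeff_map_of_injective (RingHom.injective_int _)]
      simp
    rw [h2, Real.log_mul (abs_ne_zero.2 hlc)]
    · congr 1
      change Real.log (∏ σ : K →+* ℂ, max 1 ‖σ x‖) = _
      rw [Real.log_prod]
      intro σ _
      exact (lt_of_lt_of_le one_pos (le_max_left _ _)).ne'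
    · change (∏ σ : K →+* ℂ, max 1 ‖σ x‖) ≠ 0
      exact (prod_pos fun σ _ => lt_of_lt_of_le one_pos (le_max_left _ _)).ne'
  have h2 : hgt ![x, 1 - x, -1] = (∑ σ : K →+* ℂ, Real.log (max ‖σ x‖ (max ‖σ (1 - x)‖ 1)) +
      Real.log |(f.leadingCoeff : ℝ)|) / (Module.finrank ℚ K : ℝ) := by
    unfold hgt
    congr 2
    · rw [sum_places (fun w => Real.log (max (w ((![x, 1 - x, -1] : Fin 3 → K) 0))
        (max (w ((![x, 1 - x, -1] : Fin 3 → K) 1)) (w ((![x, 1 - x, -1] : Fin 3 → K) 2)))))]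
      refine sum_congr rfl fun σ _ => ?_
      simp only [Matrix.cons_val_zero, Matrix.cons_val_one, Matrix.cons_val, InfinitePlace.apply]
      simp
    · rw [← finite_part h0 hf hx hd]
      refine finsum_congr fun v => ?_
      rw [← max3_eq v x]
      rfl
  have h3 : height f = (∑ σ : K →+* ℂ, Real.log (max 1 ‖σ x‖) +
      Real.log |(f.leadingCoeff : ℝ)|) / (Module.finrank ℚ K : ℝ) := by
    unfold height
    rw [h1, hd, add_comm]
  have h4 : ∀ σ : K →+* ℂ, 0 ≤ Real.log (max ‖σ x‖ (max ‖σ (1 - x)‖ 1)) -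
      Real.log (max 1 ‖σ x‖) ∧ Real.log (max ‖σ x‖ (max ‖σ (1 - x)‖ 1)) -
      Real.log (max 1 ‖σ x‖) ≤ Real.log 2 := by
    intro σ
    have hpos : 0 < max 1 ‖σ x‖ := lt_of_lt_of_le one_pos (le_max_left _ _)
    constructor
    · rw [sub_nonneg]
      refine Real.log_le_log hpos (max_le ?_ (le_max_left _ _))
      exact (le_max_right _ _).trans (le_max_right _ _)
    · rw [sub_le_iff_le_add, ← Real.log_mul two_ne_zero hpos.ne']
      refine Real.log_le_log (lt_of_lt_of_le one_pos
        ((le_max_right _ _).trans (le_max_right _ _))) ?_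
      have h5 : ‖σ (1 - x)‖ ≤ 1 + ‖σ x‖ := by
        rw [map_sub, map_one]
        refine (norm_sub_le _ _).trans ?_
        rw [norm_one]
      have h6 : 1 ≤ max 1 ‖σ x‖ := le_max_left _ _
      have h7 : ‖σ x‖ ≤ max 1 ‖σ x‖ := le_max_right _ _
      refine max_le (by linarith) (max_le (by linarith) (by linarith))
  have h5 : hgt ![x, 1 - x, -1] - height f = (∑ σ : K →+* ℂ,
      (Real.log (max ‖σ x‖ (max ‖σ (1 - x)‖ 1)) - Real.log (max 1 ‖σ x‖))) /
        (Module.finrank ℚ K : ℝ) := by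
    rw [h2, h3, ← sub_div, sum_sub_distrib]
    congr 1
    ring
  rw [h5, abs_of_nonneg (div_nonneg (sum_nonneg fun σ _ => (h4 σ).1) hn.le), div_le_iff₀ hn]
  refine (sum_le_card_nsmul _ _ _ fun σ _ => (h4 σ).2).trans ?_
  rw [card_univ, NumberField.Embeddings.card K ℂ, nsmul_eq_mul, mul_comm]

theorem cond : Q273.QP.S_COND := by
  intro K _ _ x f h0 h1 hf hx hd
  exact ⟨val3_ne h0 h1 hf hx hd 0, val3_ne h0 h1 hf hx hd 1, val3_ne h0 h1 hf hx hd 2,
    N1_le h0 h1 hf hx hd, height_bounds h0 hf hx hd⟩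

end Q227.QP
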